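import Pool.Agent.N936.TC.Stm

/-!
# Project TC (helper936), leaf DISJ: the two continua are disjoint (helper504)
-/

set_option autoImplicit false

namespace Pool.Agent.N504.TC

open Set Topology Pool.Agent.N936.TC

theorem key {σ : Bool → Q ≃ₜ Q} {X : Type} [TopologicalSpace X] {Φ : Q × Bool × I → X}
    (h : Model σ X Φ) (q q' : Q) (i i' : Bool) (s s' : I) (he : Φ (q, i, s) = Φ (q', i', s')) :
    (((s : ℝ) = 0 ∨ (s : ℝ) = 1) ∧ ((s' : ℝ) = 0 ∨ (s' : ℝ) = 1)) ∨ (i = i' ∧ (s : ℝ) = s') := by
  have hu : ∀ (k : Bool) (m : ℕ), (if i = k then (1 : ℝ) else 0) * ((s : ℝ) ^ (m + 1) * (1 - s)) =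
      (if i' = k then (1 : ℝ) else 0) * ((s' : ℝ) ^ (m + 1) * (1 - s')) := by
    intro k m
    obtain ⟨g, -, hg⟩ := h.fact
      (fun p => (if p.2.1 = k then (1 : ℝ) else 0) * ((p.2.2 : ℝ) ^ (m + 1) * (1 - (p.2.2 : ℝ)))) (by
        have h1 : Continuous (fun b : Bool => if b = k then (1 : ℝ) else 0) :=
          continuous_of_discreteTopology
        have h2 : Continuous (fun p : Q × Bool × I => (p.2.2 : ℝ)) :=
          continuous_subtype_val.comp (continuous_snd.comp continuous_snd)
        exact (h1.comp (continuous_fst.comp continuous_snd)).mul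
          ((h2.pow (m + 1)).mul (continuous_const.sub h2)))
      (fun q i j => by simp) (fun q i j => by simp)
    have h1 := hg (q, i, s)
    have h2 := hg (q', i', s')
    rw [he] at h1
    exact h1.symm.trans h2
  have z : ∀ x : ℝ, x * (1 - x) = 0 → x = 0 ∨ x = 1 := by
    intro x hx
    rcases mul_eq_zero.1 hx with h1 | h1
    · exact Or.inl h1
    · right
      linarith
  by_cases hi : i = i'
  · subst hi
    have h1 := hu i 0
    have h2 := hu i 1
    rw [if_pos rfl] at h1 h2
    simp only [one_mul, zero_add, pow_one] at h1 h2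
    by_cases h0 : (s : ℝ) * (1 - s) = 0
    · exact Or.inl ⟨z _ h0, z _ (h1 ▸ h0)⟩
    · right
      refine ⟨rfl, ?_⟩
      have h3 : (s : ℝ) * (s * (1 - s)) = s' * (s * (1 - s)) := by
        calc (s : ℝ) * (s * (1 - s)) = s ^ (1 + 1) * (1 - s) := by ring
          _ = s' ^ (1 + 1) * (1 - s') := h2
          _ = s' * (s' * (1 - s')) := by ring
          _ = s' * (s * (1 - s)) := by rw [h1]
      exact mul_right_cancel₀ h0 h3
  · left
    have h1 := hu i 0
    have h2 := hu i' 0
    rw [if_pos rfl, if_neg (fun h => hi h.symm)] at h1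
    rw [if_pos rfl, if_neg hi] at h2
    simp only [one_mul, zero_add, pow_one, zero_mul] at h1 h2
    exact ⟨z _ h1, z _ h2.symm⟩

theorem t_DISJ : Pool.Agent.N936.TC.S_DISJ := by
  intro σ X _ Φ h
  rw [Set.disjoint_left]
  rintro z ⟨q, i, s, r, j, t, hW, rfl⟩ ⟨q', i', s', r', j', t', hK, he⟩
  have h1 := key h q q' i i' s s' (congrArg Prod.fst he)
  have h2 := key h r r' j j' t t' (congrArg Prod.snd he)
  obtain ⟨a, ha⟩ : ∃ a : ℝ, a = (s : ℝ) := ⟨_, rfl⟩
  obtain ⟨b, hb⟩ : ∃ b : ℝ, b = (t : ℝ) := ⟨_, rfl⟩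
  obtain ⟨a', ha'⟩ : ∃ a' : ℝ, a' = (s' : ℝ) := ⟨_, rfl⟩
  obtain ⟨b', hb'⟩ : ∃ b' : ℝ, b' = (t' : ℝ) := ⟨_, rfl⟩
  rw [← ha, ← hb] at hW
  rw [← ha', ← hb'] at hK
  rw [← ha, ← ha'] at h1
  rw [← hb, ← hb'] at h2
  clear ha hb ha' hb'
  rcases h2 with ⟨h3, h4⟩ | ⟨-, h3⟩
  · have h5 : a = 1 / 4 := by
      cases i with
      | false =>
        rcases hW with h | h | h | h <;> rcases h3 with h3 | h3 <;> exfalso
        · linarith
        · linarith
        · linarith [h.2]
        · linarith [h.2]
        · linarith [h.2.1, h.2.2]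
        · linarith [h.2.1, h.2.2]
        · linarith [h.2.2.1, h.2.2.2]
        · linarith [h.2.2.1, h.2.2.2]
      | true =>
        rcases hW with h | h | h
        · rcases h3 with h3 | h3 <;> exfalso <;> linarith
        · exact h.1
        · rcases h3 with h3 | h3 <;> exfalso <;> linarith [h.2]
    have h6 : 1 - a' = 1 / 4 := by
      cases i' with
      | false =>
        rcases hK with h | h | h | h <;> rcases h4 with h4 | h4 <;> exfalso
        · linarith
        · linarith
        · linarith [h.2]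
        · linarith [h.2]
        · linarith [h.2.1, h.2.2]
        · linarith [h.2.1, h.2.2]
        · linarith [h.2.2.1, h.2.2.2]
        · linarith [h.2.2.1, h.2.2.2]
      | true =>
        rcases hK with h | h | h
        · rcases h4 with h4 | h4 <;> exfalso <;> linarith
        · exact h.1
        · rcases h4 with h4 | h4 <;> exfalso <;> linarith [h.2]
    rcases h1 with ⟨h7, -⟩ | ⟨-, h7⟩
    · rcases h7 with h7 | h7 <;> linarith
    · linarith
  · rcases h1 with ⟨h4, h5⟩ | ⟨h4, h5⟩
    · have h6 : b = 1 / 8 ∨ b = 5 / 8 := by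
        cases i with
        | false =>
          rcases hW with h | h | h | h
          · exact Or.inl h
          · exact Or.inr h.2
          · rcases h4 with h4 | h4 <;> exfalso <;> linarith [h.1]
          · rcases h4 with h4 | h4 <;> exfalso <;> linarith [h.1, h.2.1]
        | true =>
          rcases hW with h | h | h
          · exact Or.inr h
          · rcases h4 with h4 | h4 <;> exfalso <;> linarith [h.1]
          · exact Or.inl h.2
      have h7 : 1 - b' = 1 / 8 ∨ 1 - b' = 5 / 8 := by
        cases i' with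
        | false =>
          rcases hK with h | h | h | h
          · exact Or.inl h
          · exact Or.inr h.2
          · rcases h5 with h5 | h5 <;> exfalso <;> linarith [h.1]
          · rcases h5 with h5 | h5 <;> exfalso <;> linarith [h.1, h.2.1]
        | true =>
          rcases hK with h | h | h
          · exact Or.inr h
          · rcases h5 with h5 | h5 <;> exfalso <;> linarith [h.1]
          · exact Or.inl h.2
      rcases h6 with h6 | h6 <;> rcases h7 with h7 | h7 <;> linarith
    · subst h4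
      rw [← h3, ← h5] at hK
      cases i with
      | false =>
        rcases hW with h | ⟨h, k⟩ | ⟨h, k, l⟩ | ⟨h, k, l, m⟩ <;>
          rcases hK with x | ⟨x, y⟩ | ⟨x, y, z⟩ | ⟨x, y, z, w⟩ <;> linarith
      | true =>
        rcases hW with h | ⟨h, k | k⟩ | ⟨h, k⟩ <;>
          rcases hK with x | ⟨x, y | y⟩ | ⟨x, y⟩ <;> linarith

end Pool.Agent.N504.TC
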